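import Pool.Agent.Q96.ID.Stm

/-!
# Project ID (helper96), job CARD: cardinalities
-/

set_option autoImplicit false

open Cardinal Set Filter Topology

namespace Q121.ID.CARD

open Q96.ID

theorem card_field (𝕜 : Type) [RCLike 𝕜] : #𝕜 ≤ (2 : Cardinal.{0}) ^ (ℵ₀ : Cardinal.{0}) := by
  have h1 : #𝕜 ≤ #(ℝ × ℝ) := by
    refine mk_le_of_injective (f := fun z : 𝕜 => (RCLike.re z, RCLike.im z)) ?_
    intro z w h
    exact RCLike.ext (congrArg Prod.fst h) (congrArg Prod.snd h)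
  refine h1.trans (le_of_eq ?_)
  rw [mk_prod, lift_id, mk_real, continuum_mul_self, two_power_aleph0]

theorem card_linf (𝕜 : Type) [RCLike 𝕜] (Γ : Type) (hΓ : Infinite Γ) :
    #(Linf 𝕜 Γ) ≤ (2 : Cardinal.{0}) ^ #Γ := by
  have h1 : #(Linf 𝕜 Γ) ≤ #(Γ → 𝕜) := by
    refine mk_le_of_injective (f := fun f : Linf 𝕜 Γ => fun γ => f γ) ?_
    intro f g h
    exact lp.ext h
  refine h1.trans ?_
  have h2 : #(Γ → 𝕜) = #𝕜 ^ #Γ := by simp
  rw [h2]
  refine (power_le_power_right (card_field 𝕜)).trans (le_of_eq ?_)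
  rw [← power_mul, aleph0_mul_eq (aleph0_le_mk Γ)]

theorem t_CARD : S_CARD := by
  refine ⟨fun 𝕜 _ Γ hΓ => card_linf 𝕜 Γ hΓ, fun m hm μ hμ => ?_⟩
  rcases lt_or_ge μ ℵ₀ with h | h
  · have h1 : (2 : Cardinal.{0}) ^ μ < ℵ₀ := power_lt_aleph0 (natCast_lt_aleph0 (n := 2)) h
    exact h1.le.trans (aleph0_le_aleph _)
  · obtain ⟨o, rfl⟩ := mem_range_aleph_iff.2 h
    have h1 : o < (m : Ordinal) := aleph_lt_aleph.1 hμ
    obtain ⟨j, rfl⟩ := Ordinal.lt_omega0.1 (h1.trans (Ordinal.natCast_lt_omega0 m))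
    have h2 : j < m := by exact_mod_cast h1
    rw [hm j h2]
    exact aleph_le_aleph.2 (by exact_mod_cast h2)

end Q121.ID.CARD
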